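import Pool.Agent.Q256.EC.Stm

/-!
# Project EC (helper256), job CHT
-/

set_option autoImplicit false

namespace Pool.Agent.Q96.EC.JCht

open MvPolynomial
open Pool.Agent.H936R2 (pt jac)
open Pool.Agent.Q170.GP (Prim)
open Pool.Agent.Q256.EC

theorem hom_scale {R : Type} [CommRing R] {σ : Type} [Fintype σ] {G : MvPolynomial σ R} {e : ℕ}
    (hG : G.IsHomogeneous e) (c : R) (x : σ → R) :
    eval (fun i => c * x i) G = c ^ e * eval x G := by
  rw [eval_eq', eval_eq', Finset.mul_sum]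
  refine Finset.sum_congr rfl fun d hd => ?_
  have h1 : d.degree = e := by
    have := hG (mem_support_iff.1 hd)
    rw [Finsupp.degree_eq_weight_one]
    exact this
  have h2 : ∏ i, (c * x i) ^ d i = c ^ e * ∏ i, x i ^ d i := by
    simp_rw [mul_pow]
    rw [Finset.prod_mul_distrib, Finset.prod_pow_eq_pow_sum]
    congr 2
    rw [← h1, Finsupp.degree_eq_sum]
  rw [h2]
  ring

theorem coeff_single_eq {R : Type} [CommRing R] {σ : Type} (P : MvPolynomial σ R) (j : σ) :
    coeff (Finsupp.single j 1) P = eval (fun _ => 0) (pderiv j P) := by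
  have h := coeff_pderiv (i := j) P 0
  simp only [Finsupp.coe_zero, Pi.zero_apply, Nat.cast_zero, zero_add, mul_one] at h
  rw [← h]
  rw [show (fun _ : σ => (0 : R)) = 0 from rfl, ← constantCoeff_eq, eval_zero]

theorem ev_bind {K : Type} [Field K] {σ τ : Type} (Z : σ → MvPolynomial τ K) (G : MvPolynomial σ K)
    (x : τ → K) : eval x (bind₁ Z G) = eval (fun k => eval x (Z k)) G :=
  eval₂Hom_bind₁ _ _ _ _

theorem coeff_single_bind {K : Type} [Field K] {σ τ : Type} [DecidableEq σ] [DecidableEq τ]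
    (Z : σ → MvPolynomial τ K) (G : MvPolynomial σ K) (i : σ) (j : τ)
    (hZ : ∀ k, eval (fun _ => 0) (pderiv j (Z k)) = if k = i then 1 else 0) :
    coeff (Finsupp.single j 1) (bind₁ Z G) =
      eval (fun k => eval (fun _ => 0) (Z k)) (pderiv i G) := by
  rw [coeff_single_eq]
  induction G using MvPolynomial.induction_on with
  | C a => simp
  | add p q hp hq => simp only [map_add, hp, hq]
  | mul_X p k hp =>
    rw [map_mul, bind₁_X_right, Derivation.leibniz, Derivation.leibniz]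
    simp only [smul_eq_mul, map_add, map_mul, hp, hZ, eval_X, ev_bind]
    congr 1
    congr 1
    rw [pderiv_X]
    simp [Pi.single_apply, eq_comm]

theorem cht : S_CHP → S_CHU → S_CHT := by
  intro hCHP hCHU p _ N D hD Fp hF hPr γ lam Y hγ hlam hY hYs hdl
  obtain ⟨i0, hi0, hU⟩ := hCHU p N γ hγ
  -- the embedding
  obtain ⟨c, hc⟩ : ∃ c : ℤ_[p] →+* ℚ_[p], c = PadicInt.Coe.ringHom := ⟨_, rfl⟩
  have hcx : ∀ x : ℤ_[p], c x = (x : ℚ_[p]) := fun x => by rw [hc]; rfl
  have hcn : ∀ x : ℤ_[p], ‖c x‖ = ‖x‖ := fun x => by rw [hcx]; rfl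
  have hcinj : Function.Injective c := by
    intro x y h
    rw [hcx, hcx] at h
    exact Subtype.ext h
  have hev : ∀ (G : MvPolynomial (Fin (N + 1)) ℤ_[p]) (x : Fin (N + 1) → ℤ_[p]),
      c (eval x G) = eval (fun i => c (x i)) (map c G) := by
    intro G x
    rw [eval_map, ← eval₂_id, eval₂_comp_left c (RingHom.id _) x G, RingHom.comp_id]
    rfl
  obtain ⟨γ0, hγ0⟩ : ∃ γ0 : ℚ_[p], γ0 = c (γ i0) := ⟨_, rfl⟩
  have hγ0n : ‖γ0‖ = 1 := by rw [hγ0, hcn, hi0]
  have hγ00 : γ0 ≠ 0 := by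
    intro h
    rw [h, norm_zero] at hγ0n
    exact zero_ne_one hγ0n
  have hY0n : ∀ n, ‖c (Y n i0)‖ = 1 := fun n => by
    rw [hcn]
    exact (hU (Y n) (hY n) (hdl n)).1
  have hY00 : ∀ n, c (Y n i0) ≠ 0 := fun n h => by
    have := hY0n n
    rw [h, norm_zero] at this
    exact zero_ne_one this
  obtain ⟨Z, hZ⟩ : ∃ Z : Fin (N + 1) → MvPolynomial {i : Fin (N + 1) // i ≠ i0} ℚ_[p],
    Z = fun i => if h : i = i0 then 1 else C (c (γ i) / γ0) + X ⟨i, h⟩ := ⟨_, rfl⟩
  obtain ⟨w, hw⟩ : ∃ w : ℕ → {i : Fin (N + 1) // i ≠ i0} → ℚ_[p],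
    w = fun (n : ℕ) (a : {i : Fin (N + 1) // i ≠ i0}) => c (Y n a) / c (Y n i0) - c (γ a) / γ0 :=
    ⟨_, rfl⟩
  have hZw : ∀ n i, eval (w n) (Z i) = c (Y n i) / c (Y n i0) := by
    intro n i
    rw [hZ, hw]
    by_cases h : i = i0
    · subst h
      simp [div_self (hY00 n)]
    · simp [h]
  have hZ0 : ∀ i, eval (fun _ => 0) (Z i) = c (γ i) / γ0 := by
    intro i
    rw [hZ]
    by_cases h : i = i0
    · subst h
      simp [← hγ0, div_self hγ00]
    · simp [h]
  obtain ⟨fl, hfl⟩ : ∃ fl : MvPolynomial (Fin (N + 1)) ℤ_[p] →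
      MvPolynomial {i : Fin (N + 1) // i ≠ i0} ℚ_[p], fl = fun G => bind₁ Z (map c G) := ⟨_, rfl⟩
  -- the values of the forms
  have hflw : ∀ (G : MvPolynomial (Fin (N + 1)) ℤ_[p]) (e : ℕ), G.IsHomogeneous e → ∀ n,
      c (eval (Y n) G) = c (Y n i0) ^ e * eval (w n) (fl G) := by
    intro G e hG n
    rw [hfl]
    simp only
    rw [ev_bind, hev, ← hom_scale (hG.map c)]
    congr 2
    funext i
    rw [hZw]
    field_simp [hY00 n]
  have hfl0 : ∀ (G : MvPolynomial (Fin (N + 1)) ℤ_[p]) (e : ℕ), G.IsHomogeneous e →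
      c (eval γ G) = γ0 ^ e * eval (fun i => c (γ i) / γ0) (map c G) := by
    intro G e hG
    rw [hev, ← hom_scale (hG.map c)]
    congr 2
    funext i
    field_simp
  have hfl00 : ∀ (G : MvPolynomial (Fin (N + 1)) ℤ_[p]),
      constantCoeff (fl G) = eval (fun i => c (γ i) / γ0) (map c G) := by
    intro G
    have h1 : constantCoeff (fl G) = eval (fun _ => 0) (fl G) := by
      rw [constantCoeff_eq, show (fun _ : {i : Fin (N + 1) // i ≠ i0} => (0 : ℚ_[p])) = 0 from rfl,
        eval_zero, constantCoeff_eq]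
    rw [h1, hfl]
    simp only
    rw [ev_bind]
    congr 2
    funext i
    exact hZ0 i
  have hlam' : ∀ i, c (eval γ (Fp i)) = c lam * c (γ i) := by
    intro i
    have := hlam i
    unfold pt at this
    rw [this, map_mul]
  have hlam0 : lam ≠ 0 := by
    intro h
    obtain ⟨i, hi⟩ := hPr γ hγ
    rw [hlam i, h, zero_mul] at hi
    exact not_isUnit_zero hi
  have hclam : c lam ≠ 0 := by
    intro h
    apply hlam0
    apply hcinj
    rw [h, map_zero]
  have hD1 : γ0 ^ D = γ0 ^ (D - 1) * γ0 := by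
    rw [← pow_succ, Nat.sub_add_cancel hD]
  have hF0 : ∀ i, γ0 ^ (D - 1) * eval (fun i => c (γ i) / γ0) (map c (Fp i)) = c lam * c (γ i) / γ0 := by
    intro i
    have h1 := hfl0 (Fp i) D (hF i)
    rw [hlam', hD1] at h1
    rw [h1]
    field_simp
  obtain ⟨u, hu⟩ : ∃ u, u = C (γ0 ^ (D - 1)) * fl (Fp i0) := ⟨_, rfl⟩
  obtain ⟨g, hg⟩ : ∃ g : {i : Fin (N + 1) // i ≠ i0} → MvPolynomial {i : Fin (N + 1) // i ≠ i0} ℚ_[p],
    g = fun (i : {i : Fin (N + 1) // i ≠ i0}) =>
      C (γ0 ^ (D - 1)) * (fl (Fp i) - C (c (γ i) / γ0) * fl (Fp i0)) := ⟨_, rfl⟩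
  have hYp : ∀ n i, c (Y (n + 1) i) = c (Y n i0) ^ D * eval (w n) (fl (Fp i)) := by
    intro n i
    rw [hYs n]
    exact hflw (Fp i) D (hF i) n
  have huw : ∀ n, eval (w n) u = γ0 ^ (D - 1) * (c (Y (n + 1) i0) / c (Y n i0) ^ D) := by
    intro n
    rw [hu, hYp n i0]
    simp only [map_mul, eval_C]
    congr 1
    field_simp [hY00 n]
  have hwn : ∀ n, ‖w n‖ = dl (Y n) γ := by
    intro n
    rw [← (hU (Y n) (hY n) (hdl n)).2, hw, hγ0]
    simp only [hcx]
  refine ⟨i0, g, u, w, ⟨?_, ?_, ?_, ?_, ?_⟩, hwn, ?_, ?_⟩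
  · intro i
    rw [hg]
    simp only [map_mul, map_sub, constantCoeff_C]
    rw [hfl00, hfl00, mul_sub, hF0, mul_left_comm, hF0, ← hγ0]
    field_simp
    ring
  · rw [hu]
    simp only [map_mul, constantCoeff_C]
    rw [hfl00, hF0, ← hγ0, mul_div_assoc, div_self hγ00, mul_one]
    exact hclam
  · intro n i
    have h1 : eval (w n) (g i) = γ0 ^ (D - 1) * (eval (w n) (fl (Fp i)) -
        c (γ i) / γ0 * eval (w n) (fl (Fp i0))) := by
      rw [hg]
      simp only [map_mul, map_sub, eval_C]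
    have h2 : w (n + 1) i = c (Y (n + 1) i) / c (Y (n + 1) i0) - c (γ i) / γ0 := by
      rw [hw]
    have h3 : ∀ j, eval (w n) (fl (Fp j)) = c (Y (n + 1) j) / c (Y n i0) ^ D := by
      intro j
      rw [hYp n j]
      field_simp [hY00 n]
    rw [h1, h2, huw, h3, h3]
    have := hY00 (n + 1)
    have := hY00 n
    field_simp
  · intro n
    rw [huw, norm_mul, norm_pow, hγ0n, one_pow, one_mul, norm_div, norm_pow, hY0n, hY0n, one_pow, div_one]
  · intro n
    rw [hwn]
    exact (hdl n).le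
  · intro G e hG
    refine ⟨fl G, fun n => ?_⟩
    rw [← hcn (eval (Y n) G), hflw G e hG n, norm_mul, norm_pow, hY0n, one_pow, one_mul]
  · -- the linear part
    obtain ⟨J, hJ⟩ : ∃ J : Matrix (Fin (N + 1)) (Fin (N + 1)) ℚ_[p], J = (jac Fp γ).map c := ⟨_, rfl⟩
    have hJa : ∀ i j, J i j = c (eval γ (pderiv j (Fp i))) := by
      intro i j
      rw [hJ]
      rfl
    have hZd : ∀ (j : {i : Fin (N + 1) // i ≠ i0}) (k : Fin (N + 1)),
        eval (fun _ => 0) (pderiv j (Z k)) = if k = (j : Fin (N + 1)) then 1 else 0 := by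
      intro j k
      rw [hZ]
      by_cases hk : k = i0
      · subst hk
        simp [Ne.symm j.2]
      · simp only [dif_neg hk, map_add, pderiv_C, pderiv_X, zero_add]
        by_cases hkj : k = j
        · subst hkj
          simp
        · rw [if_neg hkj, Pi.single_apply, if_neg]
          · simp
          · intro h
            apply hkj
            have := congrArg Subtype.val h
            simp at this
            exact this
    have hco : ∀ i (j : {i : Fin (N + 1) // i ≠ i0}), γ0 ^ (D - 1) *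
        coeff (Finsupp.single j 1) (fl (Fp i)) = J i j := by
      intro i j
      rw [hfl]
      simp only
      rw [coeff_single_bind Z (map c (Fp i)) (j : Fin (N + 1)) j (hZd j), hJa,
        hfl0 _ (D - 1) ((hF i).pderiv), pderiv_map]
      congr 2
      congr 1
      funext k
      exact hZ0 k
    have hlin : lin g = Matrix.of fun i j : {i : Fin (N + 1) // i ≠ i0} =>
        J i j - γ i / γ i0 * J i0 j := by
      ext i j
      unfold lin
      rw [Matrix.of_apply, Matrix.of_apply, hg]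
      simp only
      rw [coeff_C_mul, coeff_sub, coeff_C_mul, mul_sub, hco, mul_left_comm, hco, hγ0, hcx, hcx]
    have hJγ : J.mulVec (fun i => (γ i : ℚ_[p])) = ((D : ℚ_[p]) * c lam) • fun i => (γ i : ℚ_[p]) := by
      funext i
      have h1 := congrArg (fun P => c (eval γ P)) (hF i).sum_X_mul_pderiv
      simp only [map_sum, map_mul, eval_X, map_nsmul, hlam'] at h1
      rw [Pi.smul_apply, smul_eq_mul]
      show ∑ j, J i j * (γ j : ℚ_[p]) = _
      simp_rw [hJa, ← hcx]
      simp_rw [mul_comm (c (eval γ _))]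
      rw [h1, nsmul_eq_mul]
      ring
    have h1 := hCHP ℚ_[p] N J i0 (fun i => (γ i : ℚ_[p])) ((D : ℚ_[p]) * c lam) (by
      rw [← hcx, ← hγ0]
      exact hγ00) (mul_ne_zero (by
        have : D ≠ 0 := by omega
        exact_mod_cast this) hclam) hJγ
    rw [← hlin] at h1
    refine h1.trans ?_
    rw [hJ, Matrix.charpoly_map]
    apply Polynomial.natTrailingDegree_le_of_ne_zero
    rw [Polynomial.coeff_map]
    intro h
    have h2 : (jac Fp γ).charpoly.coeff (jac Fp γ).charpoly.natTrailingDegree = 0 := by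
      apply hcinj
      rw [h, map_zero]
    rw [Polynomial.coeff_natTrailingDegree_eq_zero] at h2
    exact (Matrix.charpoly_monic _).ne_zero h2

end Pool.Agent.Q96.EC.JCht
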