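import Pool.Agent.Q256.EC.Stm

/-!
# Project EC (helper256), job CHU
-/

set_option autoImplicit false

namespace Pool.Agent.Q96.EC.JChu

open Pool.Agent.Q170.GP (Prim)
open Pool.Agent.Q256.EC

theorem dl_le {p : ℕ} [Fact p.Prime] {N : ℕ} (y γ : Fin (N + 1) → ℤ_[p]) (a b : Fin (N + 1)) :
    ‖y a * γ b - y b * γ a‖ ≤ dl y γ :=
  norm_le_pi_norm (fun q : Fin (N + 1) × Fin (N + 1) => y q.1 * γ q.2 - y q.2 * γ q.1) (a, b)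

theorem chu_aux (p : ℕ) [Fact p.Prime] (N : ℕ) (γ : Fin (N + 1) → ℤ_[p]) (hγ : γ ∈ Prim p (Fin (N + 1))) :
    ∃ i0 : Fin (N + 1), ‖γ i0‖ = 1 ∧ ∀ Y : Fin (N + 1) → ℤ_[p], Y ∈ Prim p (Fin (N + 1)) →
      dl Y γ < 1 → ‖Y i0‖ = 1 ∧
      ‖fun a : {a : Fin (N + 1) // a ≠ i0} =>
        (Y a : ℚ_[p]) / (Y i0 : ℚ_[p]) - (γ a : ℚ_[p]) / (γ i0 : ℚ_[p])‖ = dl Y γ := by
  obtain ⟨i0, hi0⟩ := hγ
  rw [PadicInt.isUnit_iff] at hi0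
  refine ⟨i0, hi0, fun Y hY hd => ?_⟩
  have hYi : ‖Y i0‖ = 1 := by
    by_contra hne
    have hlt : ‖Y i0‖ < 1 := lt_of_le_of_ne (PadicInt.norm_le_one _) hne
    obtain ⟨b, hb⟩ := hY
    rw [PadicInt.isUnit_iff] at hb
    have h1 : ‖Y b * γ i0 - Y i0 * γ b‖ < 1 := (dl_le Y γ b i0).trans_lt hd
    have h2 : ‖Y i0 * γ b‖ < 1 := by
      rw [norm_mul]
      calc ‖Y i0‖ * ‖γ b‖ ≤ ‖Y i0‖ * 1 :=
            mul_le_mul_of_nonneg_left (PadicInt.norm_le_one _) (norm_nonneg _)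
        _ < 1 := by rw [mul_one]; exact hlt
    have h3 : ‖Y b * γ i0‖ = 1 := by rw [norm_mul, hb, hi0, one_mul]
    have h4 : ‖(Y b * γ i0 - Y i0 * γ b) + Y i0 * γ b‖ ≤
        max ‖Y b * γ i0 - Y i0 * γ b‖ ‖Y i0 * γ b‖ := PadicInt.nonarchimedean _ _
    rw [sub_add_cancel, h3] at h4
    exact absurd h4 (not_le.2 (max_lt h1 h2))
  refine ⟨hYi, ?_⟩
  have hY0 : (Y i0 : ℚ_[p]) ≠ 0 := by
    intro h
    have : ‖(Y i0 : ℚ_[p])‖ = 1 := hYi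
    rw [h, norm_zero] at this
    exact zero_ne_one this
  have hγ0 : (γ i0 : ℚ_[p]) ≠ 0 := by
    intro h
    have : ‖(γ i0 : ℚ_[p])‖ = 1 := hi0
    rw [h, norm_zero] at this
    exact zero_ne_one this
  have hYn : ‖(Y i0 : ℚ_[p])‖ = 1 := hYi
  have hγn : ‖(γ i0 : ℚ_[p])‖ = 1 := hi0
  obtain ⟨x, hx⟩ : ∃ x : Fin (N + 1) → ℚ_[p], x = fun a =>
    (Y a : ℚ_[p]) / (Y i0 : ℚ_[p]) - (γ a : ℚ_[p]) / (γ i0 : ℚ_[p]) := ⟨_, rfl⟩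
  have hxa : ∀ a, (Y a : ℚ_[p]) / (Y i0 : ℚ_[p]) - (γ a : ℚ_[p]) / (γ i0 : ℚ_[p]) = x a := by
    intro a
    rw [hx]
  have hxn : ∀ a, ‖x a‖ = ‖Y a * γ i0 - Y i0 * γ a‖ := by
    intro a
    have h1 : x a = ((Y a * γ i0 - Y i0 * γ a : ℤ_[p]) : ℚ_[p]) / ((Y i0 : ℚ_[p]) * (γ i0 : ℚ_[p])) := by
      rw [← hxa a]
      push_cast
      field_simp
    rw [h1, norm_div, norm_mul, hYn, hγn, mul_one, div_one]
    rfl
  simp only [hxa]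
  obtain ⟨m, hm⟩ : ∃ m : ℝ, m = ‖fun a : {a : Fin (N + 1) // a ≠ i0} => x a‖ := ⟨_, rfl⟩
  rw [← hm]
  have hxm : ∀ a, ‖x a‖ ≤ m := by
    intro a
    by_cases ha : a = i0
    · subst ha
      rw [hxn, sub_self, norm_zero, hm]
      exact norm_nonneg _
    · rw [hm]
      exact norm_le_pi_norm (fun a : {a : Fin (N + 1) // a ≠ i0} => x a) ⟨a, ha⟩
  have hm0 : 0 ≤ m := by
    rw [hm]
    exact norm_nonneg _
  apply le_antisymm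
  · rw [hm]
    refine (pi_norm_le_iff_of_nonneg (norm_nonneg _)).2 fun a => ?_
    rw [hxn]
    exact dl_le Y γ a i0
  · refine (pi_norm_le_iff_of_nonneg hm0).2 fun q => ?_
    obtain ⟨a, b⟩ := q
    simp only
    have h1 : ((Y a * γ b - Y b * γ a : ℤ_[p]) : ℚ_[p]) = (Y i0 : ℚ_[p]) * (γ i0 : ℚ_[p]) *
        (x a * ((γ b : ℚ_[p]) / (γ i0 : ℚ_[p])) - x b * ((γ a : ℚ_[p]) / (γ i0 : ℚ_[p]))) := by
      rw [← hxa a, ← hxa b]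
      push_cast
      field_simp
      ring
    have h2 : ‖Y a * γ b - Y b * γ a‖ = ‖((Y a * γ b - Y b * γ a : ℤ_[p]) : ℚ_[p])‖ := rfl
    rw [h2, h1, norm_mul, norm_mul, hYn, hγn, one_mul, one_mul]
    have h3 : ∀ c, ‖(γ c : ℚ_[p]) / (γ i0 : ℚ_[p])‖ ≤ 1 := by
      intro c
      rw [norm_div, hγn, div_one]
      exact PadicInt.norm_le_one (γ c)
    rw [sub_eq_add_neg]
    refine (IsUltrametricDist.norm_add_le_max _ _).trans (max_le ?_ ?_)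
    · rw [norm_mul]
      calc _ ≤ ‖x a‖ * 1 := mul_le_mul_of_nonneg_left (h3 b) (norm_nonneg _)
        _ ≤ m := by rw [mul_one]; exact hxm a
    · rw [norm_neg, norm_mul]
      calc _ ≤ ‖x b‖ * 1 := mul_le_mul_of_nonneg_left (h3 a) (norm_nonneg _)
        _ ≤ m := by rw [mul_one]; exact hxm b

theorem chu : S_CHU := fun p _ N γ hγ => chu_aux p N γ hγ

end Pool.Agent.Q96.EC.JChu
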