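import Pool.Agent.Q256.EC.Stm

/-!
# Project EC (helper256), job CON
-/

set_option autoImplicit false

namespace Pool.Agent.Q96.EC.JCon

open MvPolynomial Topology
open Filter (Tendsto atTop)
open Pool.Agent.Q256.EC

/-- the operator bound of a matrix -/
theorem mat_bound {K : Type} [NormedField K] {ι : Type} [Fintype ι] (A : Matrix ι ι K) :
    ∃ C : ℝ, 0 ≤ C ∧ ∀ x : ι → K, ‖A.mulVec x‖ ≤ C * ‖x‖ := by
  refine ⟨∑ i, ∑ j, ‖A i j‖, Finset.sum_nonneg fun i _ => Finset.sum_nonneg fun j _ => norm_nonneg _,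
    fun x => ?_⟩
  refine (pi_norm_le_iff_of_nonneg (mul_nonneg (Finset.sum_nonneg fun i _ =>
    Finset.sum_nonneg fun j _ => norm_nonneg _) (norm_nonneg _))).2 fun i => ?_
  calc ‖A.mulVec x i‖ = ‖∑ j, A i j * x j‖ := rfl
    _ ≤ ∑ j, ‖A i j * x j‖ := norm_sum_le _ _
    _ ≤ ∑ j, ‖A i j‖ * ‖x‖ := Finset.sum_le_sum fun j _ => by
        rw [norm_mul]
        exact mul_le_mul_of_nonneg_left (norm_le_pi_norm x j) (norm_nonneg _)
    _ = (∑ j, ‖A i j‖) * ‖x‖ := by rw [Finset.sum_mul]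
    _ ≤ (∑ i, ∑ j, ‖A i j‖) * ‖x‖ := mul_le_mul_of_nonneg_right
        (Finset.single_le_sum (f := fun i => ∑ j, ‖A i j‖)
          (fun i _ => Finset.sum_nonneg fun j _ => norm_nonneg _) (Finset.mem_univ i)) (norm_nonneg _)

theorem con : S_POL → S_ORB → S_CON := by
  intro hP hO K _ _ ι _ _ g u w horb E B hME hEM hBM σ hσ0 hσ1 hSm
  obtain ⟨c, hc⟩ : ∃ c, c = constantCoeff u := ⟨_, rfl⟩
  have hc0 : c ≠ 0 := by
    rw [hc]
    exact horb.u0
  obtain ⟨Q, hQ, C2, hC2, hN⟩ := (hO K ι g u w horb).1 2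
  have hQb : ∀ i, ∃ C : ℝ, 0 ≤ C ∧ ∀ x : ι → K, ‖x‖ ≤ 1 → ‖eval x (Q i)‖ ≤ C * ‖x‖ ^ 2 :=
    fun i => (hP K ι (Q i)).1 2 (hQ i)
  choose D hD0 hD using hQb
  obtain ⟨N, hNd⟩ : ∃ N : ℕ → ι → K, N = fun n => c • w (n + 1) - (lin g).mulVec (w n) := ⟨_, rfl⟩
  obtain ⟨C0, hC0d⟩ : ∃ C0 : ℝ, C0 = C2 + ∑ i, D i := ⟨_, rfl⟩
  have hC0 : 0 ≤ C0 := by
    rw [hC0d]
    exact add_nonneg hC2 (Finset.sum_nonneg fun i _ => hD0 i)
  have hNb : ∀ n, ‖N n‖ ≤ C0 * ‖w n‖ ^ 2 := by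
    intro n
    refine (pi_norm_le_iff_of_nonneg (mul_nonneg hC0 (sq_nonneg _))).2 fun i => ?_
    have h1 : N n i = (c * w (n + 1) i - ∑ j, lin g i j * w n j - eval (w n) (Q i)) +
        eval (w n) (Q i) := by
      rw [hNd]
      simp only [Pi.sub_apply, Pi.smul_apply, smul_eq_mul, sub_add_cancel]
      rfl
    rw [h1]
    refine (norm_add_le _ _).trans ?_
    have h2 := hN n i
    rw [← hc] at h2
    have h3 := hD i (w n) (horb.le n)
    have h4 : D i ≤ ∑ i, D i := Finset.single_le_sum (fun i _ => hD0 i) (Finset.mem_univ i)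
    have h5 := mul_le_mul_of_nonneg_right h4 (sq_nonneg ‖w n‖)
    rw [hC0d]
    linarith
  obtain ⟨kB, hkB, hB⟩ := mat_bound B
  obtain ⟨kE, hkE, hE⟩ := mat_bound E
  obtain ⟨y, hy⟩ : ∃ y : ℕ → ι → K, y = fun n => w n - E.mulVec (w n) := ⟨_, rfl⟩
  have hyn : ∀ n, w n - E.mulVec (w n) = y n := fun n => by rw [hy]
  -- the recursions
  have hw1 : ∀ n, c • w (n + 1) = (lin g).mulVec (w n) + N n := by
    intro n
    rw [hNd]
    simp
  have hs : ∀ n, c • E.mulVec (w (n + 1)) = E.mulVec (N n) := by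
    intro n
    rw [← Matrix.mulVec_smul, hw1, Matrix.mulVec_add, Matrix.mulVec_mulVec, hEM, Matrix.zero_mulVec,
      zero_add]
  have hyr : ∀ n, y n = B.mulVec (c • y (n + 1) - (N n - E.mulVec (N n))) := by
    intro n
    have h1 : c • y (n + 1) - (N n - E.mulVec (N n)) = (lin g).mulVec (w n) := by
      rw [← hyn, smul_sub, hw1, hs]
      abel
    rw [h1, Matrix.mulVec_mulVec, hBM, Matrix.sub_mulVec, Matrix.one_mulVec, hyn]
  obtain ⟨C1, hC1⟩ : ∃ C1 : ℝ, C1 = 1 + kB * (‖c‖ + (1 + kE) * C0) + ‖c‖⁻¹ * (kE * C0) + (1 + kE) :=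
    ⟨_, rfl⟩
  have hcn : 0 < ‖c‖ := norm_pos_iff.2 hc0
  have h11 : 0 ≤ kB * (‖c‖ + (1 + kE) * C0) := by positivity
  have h12 : 0 ≤ ‖c‖⁻¹ * (kE * C0) := by positivity
  have hC11 : 1 ≤ C1 := by
    rw [hC1]
    linarith
  have hC10 : 0 < C1 := by linarith
  have hyb : ∀ n, ‖y n‖ ≤ C1 * max ‖y (n + 1)‖ (‖w n‖ ^ 2) := by
    intro n
    obtain ⟨m, hm⟩ : ∃ m, m = max ‖y (n + 1)‖ (‖w n‖ ^ 2) := ⟨_, rfl⟩
    have hm1 : ‖y (n + 1)‖ ≤ m := by
      rw [hm]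
      exact le_max_left _ _
    have hm2 : ‖w n‖ ^ 2 ≤ m := by
      rw [hm]
      exact le_max_right _ _
    have hm0 : 0 ≤ m := (norm_nonneg _).trans hm1
    rw [← hm]
    have h1 : ‖c • y (n + 1) - (N n - E.mulVec (N n))‖ ≤ (‖c‖ + (1 + kE) * C0) * m := by
      have h2 : ‖N n‖ ≤ C0 * m := (hNb n).trans (mul_le_mul_of_nonneg_left hm2 hC0)
      have h3 : ‖E.mulVec (N n)‖ ≤ kE * (C0 * m) :=
        (hE _).trans (mul_le_mul_of_nonneg_left h2 hkE)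
      have h4 : ‖c • y (n + 1)‖ ≤ ‖c‖ * m := by
        rw [norm_smul]
        exact mul_le_mul_of_nonneg_left hm1 hcn.le
      have h5 := norm_sub_le (c • y (n + 1)) (N n - E.mulVec (N n))
      have h6 := norm_sub_le (N n) (E.mulVec (N n))
      calc _ ≤ ‖c • y (n + 1)‖ + ‖N n - E.mulVec (N n)‖ := h5
        _ ≤ ‖c‖ * m + (C0 * m + kE * (C0 * m)) := by linarith
        _ = _ := by ring
    rw [hyr n]
    calc _ ≤ kB * ‖c • y (n + 1) - (N n - E.mulVec (N n))‖ := hB _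
      _ ≤ kB * ((‖c‖ + (1 + kE) * C0) * m) := mul_le_mul_of_nonneg_left h1 hkB
      _ = kB * (‖c‖ + (1 + kE) * C0) * m := by ring
      _ ≤ C1 * m := by
          apply mul_le_mul_of_nonneg_right _ hm0
          rw [hC1]
          linarith
  have hsb : ∀ n, ‖E.mulVec (w (n + 1))‖ ≤ C1 * ‖w n‖ ^ 2 := by
    intro n
    have h1 : ‖c‖ * ‖E.mulVec (w (n + 1))‖ ≤ kE * (C0 * ‖w n‖ ^ 2) := by
      rw [← norm_smul, hs]
      exact (hE _).trans (mul_le_mul_of_nonneg_left (hNb n) hkE)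
    have h2 : ‖E.mulVec (w (n + 1))‖ ≤ ‖c‖⁻¹ * (kE * C0) * ‖w n‖ ^ 2 := by
      have h3 := mul_le_mul_of_nonneg_left h1 (inv_nonneg.2 hcn.le)
      rw [← mul_assoc, inv_mul_cancel₀ hcn.ne', one_mul] at h3
      calc _ ≤ _ := h3
        _ = _ := by ring
    refine h2.trans (mul_le_mul_of_nonneg_right ?_ (sq_nonneg _))
    rw [hC1]
    linarith
  have hyw : ∀ n, ‖y n‖ ≤ C1 * ‖w n‖ := by
    intro n
    rw [← hyn]
    calc _ ≤ ‖w n‖ + ‖E.mulVec (w n)‖ := norm_sub_le _ _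
      _ ≤ ‖w n‖ + kE * ‖w n‖ := by linarith [hE (w n)]
      _ = (1 + kE) * ‖w n‖ := by ring
      _ ≤ C1 * ‖w n‖ := by
          apply mul_le_mul_of_nonneg_right _ (norm_nonneg _)
          rw [hC1]
          linarith
  -- small norms
  obtain ⟨n1, hn1⟩ : ∃ n1 : ℕ, ∀ n, n1 ≤ n → C1 * C1 * ‖w n‖ < 1 := by
    obtain ⟨C, hC⟩ := hSm 1
    have h1 : Tendsto (fun n : ℕ => C1 * C1 * (C * (σ ^ 1) ^ n)) atTop (𝓝 (C1 * C1 * (C * 0))) := by
      refine Tendsto.const_mul _ (Tendsto.const_mul _ ?_)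
      rw [pow_one]
      exact tendsto_pow_atTop_nhds_zero_of_lt_one hσ0.le hσ1
    rw [mul_zero, mul_zero] at h1
    obtain ⟨n1, hn1⟩ := Filter.eventually_atTop.1 (h1.eventually (gt_mem_nhds (zero_lt_one (α := ℝ))))
    refine ⟨n1, fun n hn => lt_of_le_of_lt ?_ (hn1 n hn)⟩
    apply mul_le_mul_of_nonneg_left _ (by positivity)
    have := hC n
    rwa [abs_of_nonneg (norm_nonneg _)] at this
  refine ⟨C1, n1, fun n hn => ?_⟩
  rw [hyn]
  by_contra hcon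
  rw [not_le] at hcon
  have key : ∀ j : ℕ, C1 * ‖w (n + j)‖ ^ 2 < ‖y (n + j)‖ ∧ ‖y n‖ ≤ C1 ^ j * ‖y (n + j)‖ := by
    intro j
    induction j with
    | zero => exact ⟨hcon, by simp⟩
    | succ j ih =>
      obtain ⟨h1, h2⟩ := ih
      have h3 := hyb (n + j)
      have h4 : ‖y (n + j)‖ ≤ C1 * ‖y (n + j + 1)‖ := by
        rcases le_total (‖w (n + j)‖ ^ 2) ‖y (n + j + 1)‖ with h5 | h5
        · rwa [max_eq_left h5] at h3
        · rw [max_eq_right h5] at h3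
          exact absurd h3 (not_le.2 h1)
      have h0 : 0 < ‖y (n + j)‖ := lt_of_le_of_lt (by positivity) h1
      have h6 : 0 < ‖y (n + j + 1)‖ := by
        by_contra h7
        have h8 : ‖y (n + j + 1)‖ = 0 := le_antisymm (not_lt.1 h7) (norm_nonneg _)
        rw [h8, mul_zero] at h4
        exact absurd h0 (not_lt.2 h4)
      have h7 : ‖w (n + j + 1)‖ ≤ C1 * ‖y (n + j + 1)‖ := by
        have h8 : w (n + j + 1) = y (n + j + 1) + E.mulVec (w (n + j + 1)) := by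
          rw [← hyn]
          simp
        rw [h8]
        refine (pi_norm_le_iff_of_nonneg (by positivity)).2 fun i => ?_
        rw [Pi.add_apply]
        refine (IsUltrametricDist.norm_add_le_max _ _).trans (max_le ?_ ?_)
        · calc _ ≤ ‖y (n + j + 1)‖ := norm_le_pi_norm _ i
            _ ≤ C1 * ‖y (n + j + 1)‖ := le_mul_of_one_le_left h6.le hC11
        · calc _ ≤ ‖E.mulVec (w (n + j + 1))‖ := norm_le_pi_norm _ i
            _ ≤ C1 * ‖w (n + j)‖ ^ 2 := hsb (n + j)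
            _ ≤ ‖y (n + j)‖ := h1.le
            _ ≤ _ := h4
      have h9 := hn1 (n + j + 1) (by omega)
      refine ⟨?_, ?_⟩
      · calc C1 * ‖w (n + (j + 1))‖ ^ 2 = C1 * ‖w (n + j + 1)‖ * ‖w (n + j + 1)‖ := by
              rw [← add_assoc]
              ring
          _ ≤ C1 * ‖w (n + j + 1)‖ * (C1 * ‖y (n + j + 1)‖) :=
              mul_le_mul_of_nonneg_left h7 (by positivity)
          _ = (C1 * C1 * ‖w (n + j + 1)‖) * ‖y (n + j + 1)‖ := by ring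
          _ < 1 * ‖y (n + j + 1)‖ := mul_lt_mul_of_pos_right h9 h6
          _ = ‖y (n + (j + 1))‖ := by rw [one_mul, add_assoc]
      · calc ‖y n‖ ≤ C1 ^ j * ‖y (n + j)‖ := h2
          _ ≤ C1 ^ j * (C1 * ‖y (n + j + 1)‖) := mul_le_mul_of_nonneg_left h4 (by positivity)
          _ = C1 ^ (j + 1) * ‖y (n + (j + 1))‖ := by
              rw [← add_assoc]
              ring
  obtain ⟨k, hk⟩ : ∃ k : ℕ, C1 * σ ^ k < 1 := by
    obtain ⟨k, hk⟩ := exists_pow_lt_of_lt_one (inv_pos.2 hC10) hσ1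
    refine ⟨k, ?_⟩
    calc C1 * σ ^ k < C1 * C1⁻¹ := mul_lt_mul_of_pos_left hk hC10
      _ = 1 := mul_inv_cancel₀ hC10.ne'
  obtain ⟨C, hC⟩ := hSm k
  have h1 : ∀ j : ℕ, ‖y n‖ ≤ C1 * C * (σ ^ k) ^ n * (C1 * σ ^ k) ^ j := by
    intro j
    have h2 := hC (n + j)
    rw [abs_of_nonneg (norm_nonneg _)] at h2
    calc ‖y n‖ ≤ C1 ^ j * ‖y (n + j)‖ := (key j).2
      _ ≤ C1 ^ j * (C1 * ‖w (n + j)‖) := mul_le_mul_of_nonneg_left (hyw _) (by positivity)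
      _ ≤ C1 ^ j * (C1 * (C * (σ ^ k) ^ (n + j))) := by
          apply mul_le_mul_of_nonneg_left _ (by positivity)
          exact mul_le_mul_of_nonneg_left h2 hC10.le
      _ = _ := by
          rw [pow_add, mul_pow]
          ring
  have h2 : Tendsto (fun j : ℕ => C1 * C * (σ ^ k) ^ n * (C1 * σ ^ k) ^ j) atTop
      (𝓝 (C1 * C * (σ ^ k) ^ n * 0)) :=
    Tendsto.const_mul _ (tendsto_pow_atTop_nhds_zero_of_lt_one (by positivity) hk)
  rw [mul_zero] at h2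
  have h3 : ‖y n‖ ≤ 0 := ge_of_tendsto' h2 h1
  have h4 : 0 ≤ C1 * ‖w n‖ ^ 2 := by positivity
  linarith

end Pool.Agent.Q96.EC.JCon
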