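import Pool.Agent.Q256.EC.Stm

/-!
# Project EC (helper256), job PRJ
-/

set_option autoImplicit false

namespace Pool.Agent.Q96.EC.JPrj

open Polynomial in
theorem prj_aux (K : Type) [Field K] (ι : Type) [Fintype ι] [DecidableEq ι] (M : Matrix ι ι K)
    (h : M.charpoly.natTrailingDegree ≤ 1) : ∃ (E B : Matrix ι ι K) (v : ι → K), M * E = 0 ∧ E * M = 0 ∧
      B * M = 1 - E ∧ ∀ x : ι → K, ∃ c : K, E.mulVec x = c • v := by
  by_cases h0 : M.charpoly.coeff 0 = 0
  · have hχ : M.charpoly ≠ 0 := (Matrix.charpoly_monic M).ne_zero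
    have h1 : M.charpoly.coeff 1 ≠ 0 := by
      have h2 : M.charpoly.coeff M.charpoly.natTrailingDegree ≠ 0 := by
        have := mt trailingCoeff_eq_zero.1 hχ
        exact this
      interval_cases h3 : M.charpoly.natTrailingDegree
      · exact absurd h0 h2
      · exact h2
    obtain ⟨q, hq⟩ := X_dvd_iff.2 h0
    have hc : q.coeff 0 ≠ 0 := by
      rw [hq, coeff_X_mul] at h1
      exact h1
    obtain ⟨c, hcd⟩ : ∃ c, c = q.coeff 0 := ⟨_, rfl⟩
    rw [← hcd] at hc
    have hCH : aeval M (X * q) = 0 := by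
      rw [← hq]
      exact Matrix.aeval_self_charpoly M
    have hME : M * aeval M q = 0 := by
      rw [map_mul, aeval_X] at hCH
      exact hCH
    have hEM : aeval M q * M = 0 := by
      rw [mul_comm, map_mul, aeval_X] at hCH
      exact hCH
    have hr : aeval M q = aeval M q.divX * M + c • 1 := by
      conv_lhs => rw [← divX_mul_X_add q]
      rw [map_add, map_mul, aeval_X, aeval_C, ← hcd, Algebra.algebraMap_eq_smul_one]
    obtain ⟨v, hv⟩ := (finrank_le_one_iff (K := K)
      (V := Module.End.maxGenEigenspace M.mulVecLin 0)).1 (by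
        rw [LinearMap.finrank_maxGenEigenspace_zero_eq, Matrix.charpoly_mulVecLin]
        exact h)
    refine ⟨c⁻¹ • aeval M q, (-c⁻¹) • aeval M q.divX, v, ?_, ?_, ?_, ?_⟩
    · rw [Matrix.mul_smul, hME, smul_zero]
    · rw [Matrix.smul_mul, hEM, smul_zero]
    · rw [hr, Matrix.smul_mul, smul_add, smul_smul, inv_mul_cancel₀ hc, one_smul, neg_smul]
      abel
    · intro x
      have hx : (c⁻¹ • aeval M q).mulVec x ∈ Module.End.maxGenEigenspace M.mulVecLin 0 := by
        rw [Module.End.mem_maxGenEigenspace]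
        refine ⟨1, ?_⟩
        rw [zero_smul, sub_zero, pow_one, Matrix.mulVecLin_apply, Matrix.mulVec_mulVec,
          Matrix.mul_smul, hME, smul_zero, Matrix.zero_mulVec]
      obtain ⟨a, ha⟩ := hv ⟨_, hx⟩
      refine ⟨a, ?_⟩
      have := congrArg Subtype.val ha
      simpa using this.symm
  · have hdet : IsUnit M.det := by
      rw [Matrix.det_eq_sign_charpoly_coeff]
      exact isUnit_iff_ne_zero.2 (mul_ne_zero (pow_ne_zero _ (by simp)) h0)
    refine ⟨0, M⁻¹, 0, by simp, by simp, ?_, fun x => ⟨0, by simp⟩⟩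
    rw [Matrix.nonsing_inv_mul _ hdet, sub_zero]

theorem prj : Pool.Agent.Q256.EC.S_PRJ := fun K _ ι _ _ M h => prj_aux K ι M h

end Pool.Agent.Q96.EC.JPrj
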