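import Pool.Agent.Q256.EC.Stm

/-!
# Project EC (helper256), job CHP
-/

set_option autoImplicit false

namespace Pool.Agent.Q96.EC.JChp

open Polynomial in
theorem chp_aux (K : Type) [Field K] (N : ℕ) (J : Matrix (Fin (N + 1)) (Fin (N + 1)) K) (i0 : Fin (N + 1))
    (γ : Fin (N + 1) → K) (κ : K) (h0 : γ i0 ≠ 0) (hJ : J.mulVec γ = κ • γ) :
    (Matrix.of fun i j : {i : Fin (N + 1) // i ≠ i0} =>
      J i j - γ i / γ i0 * J i0 j).charpoly.natTrailingDegree ≤ J.charpoly.natTrailingDegree := by
  classical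
  obtain ⟨U, hU⟩ : ∃ U : Matrix (Fin (N + 1)) (Fin (N + 1)) K,
    U = Matrix.of fun i j => if j = i0 then γ i / γ i0 else if i = j then 1 else 0 := ⟨_, rfl⟩
  obtain ⟨V, hV⟩ : ∃ V : Matrix (Fin (N + 1)) (Fin (N + 1)) K,
    V = Matrix.of fun i j => if j = i0 then (if i = i0 then 1 else -(γ i / γ i0)) else
      if i = j then 1 else 0 := ⟨_, rfl⟩
  have hVmul : ∀ (W : Matrix (Fin (N + 1)) (Fin (N + 1)) K) i j,
      (V * W) i j = if i = i0 then W i0 j else W i j - γ i / γ i0 * W i0 j := by
    intro W i j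
    rw [Matrix.mul_apply, ← Finset.add_sum_erase _ _ (Finset.mem_univ i0)]
    have h1 : ∀ k ∈ Finset.univ.erase i0, V i k * W k j = if k = i then W i j else 0 := by
      intro k hk
      have hk0 := Finset.ne_of_mem_erase hk
      rw [hV]
      simp only [Matrix.of_apply, if_neg hk0]
      by_cases hik : i = k
      · subst hik
        simp
      · rw [if_neg hik, if_neg (Ne.symm hik), zero_mul]
    rw [Finset.sum_congr rfl h1, Finset.sum_ite_eq']
    have h2 : V i i0 = if i = i0 then 1 else -(γ i / γ i0) := by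
      rw [hV]
      simp
    rw [h2]
    by_cases hi : i = i0
    · subst hi
      simp
    · have : i ∈ Finset.univ.erase i0 := Finset.mem_erase.2 ⟨hi, Finset.mem_univ _⟩
      rw [if_neg hi, if_neg hi, if_pos this]
      ring
  have hUmul : ∀ (W : Matrix (Fin (N + 1)) (Fin (N + 1)) K) i j,
      (W * U) i j = if j = i0 then (∑ k, W i k * γ k) / γ i0 else W i j := by
    intro W i j
    rw [Matrix.mul_apply, hU]
    by_cases hj : j = i0
    · simp only [Matrix.of_apply, if_pos hj]
      rw [Finset.sum_div]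
      exact Finset.sum_congr rfl fun k _ => by ring
    · simp only [Matrix.of_apply, if_neg hj]
      simp
  have hUV : U * V = 1 := by
    have hVU : V * U = 1 := by
      ext i j
      rw [hVmul, hU]
      simp only [Matrix.of_apply]
      by_cases hi : i = i0
      · subst hi
        by_cases hj : j = i
        · subst hj
          simp [h0]
        · rw [if_pos rfl, if_neg hj, if_neg (Ne.symm hj), Matrix.one_apply_ne (Ne.symm hj)]
      · rw [if_neg hi]
        by_cases hj : j = i0
        · subst hj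
          rw [if_pos rfl, if_pos rfl, div_self h0, mul_one, sub_self, Matrix.one_apply_ne hi]
        · rw [if_neg hj, if_neg hj, if_neg (Ne.symm hj), mul_zero, sub_zero, Matrix.one_apply]
    exact mul_eq_one_comm.1 hVU
  obtain ⟨P, hP⟩ : ∃ P, P = V * (J * U) := ⟨_, rfl⟩
  have hPJ : P.charpoly = J.charpoly := by
    rw [hP, Matrix.charpoly_mul_comm, Matrix.mul_assoc, hUV, Matrix.mul_one]
  have hJk : ∀ i, ∑ k, J i k * γ k = κ * γ i := by
    intro i
    have := congrFun hJ i
    simpa [Matrix.mulVec, dotProduct] using this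
  have hP0 : ∀ i, i ≠ i0 → P i i0 = 0 := by
    intro i hi
    rw [hP, hVmul, if_neg hi, hUmul, hUmul, if_pos rfl, if_pos rfl, hJk, hJk]
    field_simp
    ring
  have hP1 : ∀ i j, i ≠ i0 → j ≠ i0 → P i j = J i j - γ i / γ i0 * J i0 j := by
    intro i j hi hj
    rw [hP, hVmul, if_neg hi, hUmul, hUmul, if_neg hj, if_neg hj]
  obtain ⟨M, hM⟩ : ∃ M : Matrix {i : Fin (N + 1) // i ≠ i0} {i : Fin (N + 1) // i ≠ i0} K,
    M = Matrix.of fun i j : {i : Fin (N + 1) // i ≠ i0} => J i j - γ i / γ i0 * J i0 j := ⟨_, rfl⟩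
  rw [← hM]
  have e1 : (P.charmatrix).toSquareBlockProp (fun i => ¬ (i = i0)) = M.charmatrix := by
    refine Matrix.ext fun i j => ?_
    by_cases hij : i = j
    · subst hij
      rw [Matrix.charmatrix_apply_eq, hM, Matrix.of_apply, ← hP1 _ _ i.2 i.2]
      exact Matrix.charmatrix_apply_eq _ _
    · rw [Matrix.charmatrix_apply_ne _ _ _ hij, hM, Matrix.of_apply, ← hP1 _ _ i.2 j.2]
      exact Matrix.charmatrix_apply_ne _ _ _ fun h => hij (Subtype.ext h)
  have h1 : J.charpoly = ((P.charmatrix).toSquareBlockProp (fun i => i = i0)).det * M.charpoly := by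
    rw [← hPJ]
    have h3 := Matrix.twoBlockTriangular_det P.charmatrix (fun i => i = i0) fun i hi j hj => by
      subst hj
      rw [Matrix.charmatrix_apply_ne _ _ _ hi, hP0 i hi, C_0, neg_zero]
    unfold Matrix.charpoly
    rw [h3, ← e1]
    congr!
  have h2 : J.charpoly ≠ 0 := (Matrix.charpoly_monic J).ne_zero
  rw [h1] at h2 ⊢
  rw [natTrailingDegree_mul (left_ne_zero_of_mul h2) (right_ne_zero_of_mul h2)]
  exact Nat.le_add_left _ _

theorem chp : Pool.Agent.Q256.EC.S_CHP := fun K _ N J i0 γ κ h0 _ hJ => chp_aux K N J i0 γ κ h0 hJ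

end Pool.Agent.Q96.EC.JChp
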